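import Pool.Agent.X43.SR.C

/-! MP_626f3c_co: for `d ≥ 4` the subspaces containing all minimal slice rank decompositions cannot
be chosen of dimension linear in the slice rank; the dimension has to be at least
`(d + k - 3).choose (d - 2)`, over every field. -/

set_option autoImplicit false

open Finset
open Pool.Agent.X43.SR (Tensor Decomp)

namespace Pool.Agent.Results.MP_626f3c_co.NotLinear

/-- the slice rank of `T` equals `k` -/
def HasSliceRank {F : Type} [Field F] {d : ℕ} {n : Fin d → ℕ} (T : Tensor F n) (k : ℕ) : Prop :=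
  IsLeast {l | Nonempty (Decomp T l)} k

/-- the subspaces `A j` contain the spans of the vectors `u_{j,1}, …, u_{j,s_j}` of all slice rank
decompositions of `T` of length `k` -/
def ContainsAll {F : Type} [Field F] {d : ℕ} {n : Fin d → ℕ} (T : Tensor F n) (k : ℕ)
    (A : ∀ j, Submodule F (Fin (n j) → F)) : Prop :=
  ∀ (D : Decomp T k) (j : Fin d), Submodule.span F (Set.range (D.u j)) ≤ A j

/-- `C` is an admissible value of `C(d, k)` -/
def Admissible (d k : ℕ) (C : ℝ) : Prop :=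
  ∀ (F : Type) [Field F] (n : Fin d → ℕ), (∀ j, 1 ≤ n j) → ∀ T : Tensor F n, HasSliceRank T k →
    ∃ A : ∀ j, Submodule F (Fin (n j) → F), (∀ j, (Module.finrank F (A j) : ℝ) ≤ C) ∧
      ContainsAll T k A

theorem many (F : Type) [Field F] {d k : ℕ} (hd : 4 ≤ d) (hk : 1 ≤ k) :
    ∃ (n : Fin d → ℕ) (T : Tensor F n), (∀ j, 1 ≤ n j) ∧ HasSliceRank T k ∧
      ∀ A : (∀ j, Submodule F (Fin (n j) → F)), ContainsAll T k A →
        ∃ j, (d + k - 3).choose (d - 2) ≤ Module.finrank F (A j) := by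
  classical
  obtain ⟨m, rfl⟩ := Nat.exists_eq_add_of_le' (show 3 ≤ d by omega)
  obtain ⟨K, rfl⟩ := Nat.exists_eq_add_of_le' hk
  refine ⟨fun _ => (K + 1) ^ (m + 2), Pool.Agent.X43.SR.T F (m + 2) K,
    fun _ => Nat.one_le_iff_ne_zero.2 (by positivity), Pool.Agent.X43.SR.isLeast_T m K,
    fun A hA => ⟨Fin.last (m + 2), ?_⟩⟩
  set S := (univ : Finset (Fin (m + 2))).finsuppAntidiag K with hS
  have hSsum : ∀ q ∈ S, ∑ j, q j = K := fun q hq => (mem_finsuppAntidiag.1 hq).1
  have hcard : S.card = (m + 3 + (K + 1) - 3).choose (m + 3 - 2) := by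
    rw [hS, card_finsuppAntidiag_nat_eq_choose, card_univ, Fintype.card_fin]
    have e1 : m + 2 + K - 1 = m + 1 + K := by omega
    have e2 : m + 3 + (K + 1) - 3 = m + 1 + K := by omega
    have e3 : m + 3 - 2 = m + 1 := by omega
    rw [e1, e2, e3]
    exact (Nat.choose_symm_add).symm
  rw [← hcard]
  have hmem : ∀ q ∈ S, (Pi.single (Pool.Agent.X43.SR.code K (fun j => q j)) (1 : F) :
      Fin ((K + 1) ^ (m + 2)) → F) ∈ A (Fin.last (m + 2)) := by
    intro q hq
    exact hA (Pool.Agent.X43.SR.dec F (fun j => q j) (hSsum q hq)) _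
      (Submodule.subset_span (Pool.Agent.X43.SR.dec_u F (fun j => q j) (hSsum q hq)))
  have hinj : Function.Injective fun q : S => Pool.Agent.X43.SR.code K (fun j => q.1 j) := by
    intro q q' h
    have h1 := Pool.Agent.X43.SR.code_inj (Pool.Agent.X43.SR.le_of_sum (hSsum q q.2))
      (Pool.Agent.X43.SR.le_of_sum (hSsum q' q'.2)) h
    exact Subtype.ext (Finsupp.ext fun j => congrFun h1 j)
  have hli : LinearIndependent F (fun q : S =>
      (Pi.single (Pool.Agent.X43.SR.code K (fun j => q.1 j)) (1 : F) :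
        Fin ((K + 1) ^ (m + 2)) → F)) := by
    have := (Pi.basisFun F (Fin ((K + 1) ^ (m + 2)))).linearIndependent.comp _ hinj
    convert this using 1
    funext q
    simp
  have hli' : LinearIndependent F (fun q : S =>
      (⟨Pi.single (Pool.Agent.X43.SR.code K (fun j => q.1 j)) (1 : F), hmem q q.2⟩ :
        A (Fin.last (m + 2)))) := by
    refine LinearIndependent.of_comp (A (Fin.last (m + 2))).subtype ?_
    exact hli
  have h1 := hli'.fintype_card_le_finrank
  rwa [Fintype.card_coe] at h1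

theorem result :
    -- over every field and for all `d ≥ 4`, `k ≥ 1`
    (∀ (F : Type) [Field F] (d k : ℕ), 4 ≤ d → 1 ≤ k →
      ∃ (n : Fin d → ℕ) (T : Tensor F n), (∀ j, 1 ≤ n j) ∧ HasSliceRank T k ∧
        ∀ A : (∀ j, Submodule F (Fin (n j) → F)), ContainsAll T k A →
          ∃ j, (d + k - 3).choose (d - 2) ≤ Module.finrank F (A j)) ∧
    -- no linear bound is admissible for any `d ≥ 4`
    (∀ d : ℕ, 4 ≤ d → ∀ K : ℝ, ∃ k : ℕ, 1 ≤ k ∧ ¬ Admissible d k (K * k)) ∧
    -- the statement of Q1 is false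
    ¬ ∀ d : ℕ, 3 ≤ d → ∃ K : ℝ, ∀ k : ℕ, 1 ≤ k → Admissible d k (K * k) := by
  have h2 : ∀ d : ℕ, 4 ≤ d → ∀ K : ℝ, ∃ k : ℕ, 1 ≤ k ∧ ¬ Admissible d k (K * k) := by
    intro d hd K
    obtain ⟨N, hN⟩ := exists_nat_gt K
    refine ⟨2 * N + 1, by omega, fun hadm => ?_⟩
    obtain ⟨n, T, hn, hT, hA⟩ := many ℚ hd (show 1 ≤ 2 * N + 1 by omega)
    obtain ⟨A, hA1, hA2⟩ := hadm ℚ n hn T hT
    obtain ⟨j, hj⟩ := hA A hA2
    have h3 := hA1 j
    -- `(k + 1).choose 2 ≤ (d + k - 3).choose (d - 2)`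
    have h4 : (2 * N + 2).choose 2 ≤ (d + (2 * N + 1) - 3).choose (d - 2) := by
      have e1 : d + (2 * N + 1) - 3 = (d - 2) + 2 * N := by omega
      rw [e1, Nat.choose_symm_add]
      calc (2 * N + 2).choose 2 = (2 + 2 * N).choose (2 * N) := by
            rw [add_comm, Nat.choose_symm_add]
        _ ≤ ((d - 2) + 2 * N).choose (2 * N) := Nat.choose_le_choose _ (by omega)
    have h5 : (2 * N + 2).choose 2 = (N + 1) * (2 * N + 1) := by
      rw [Nat.choose_two_right]
      have : (2 * N + 2) * (2 * N + 2 - 1) = 2 * ((N + 1) * (2 * N + 1)) := by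
        have e : 2 * N + 2 - 1 = 2 * N + 1 := by omega
        rw [e]
        ring
      rw [this]
      omega
    have h6 : (N + 1) * (2 * N + 1) ≤ Module.finrank ℚ (A j) := by
      rw [← h5]
      exact h4.trans hj
    have h7 : (((N + 1) * (2 * N + 1) : ℕ) : ℝ) ≤ Module.finrank ℚ (A j) := by exact_mod_cast h6
    have h8 := h7.trans h3
    push_cast at h8
    have h9 : (0 : ℝ) < 2 * N + 1 := by positivity
    have h10 : (N : ℝ) + 1 ≤ K := le_of_mul_le_mul_right h8 h9
    linarith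
  refine ⟨fun F _ d k hd hk => many F hd hk, h2, fun h => ?_⟩
  obtain ⟨K, hK⟩ := h 4 (by norm_num)
  obtain ⟨k, hk, hn⟩ := h2 4 le_rfl K
  exact hn (hK k hk)

end Pool.Agent.Results.MP_626f3c_co.NotLinear
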